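import Pool.Agent.Helper79.KC.Words
import Pool.Agent.Helper41.KM.Planes

/-!
# From the ten residues to the planes
-/

open Finset

namespace Pool.Agent.Helper79.KC

open Pool.Agent.Helper44.KC (W B Odds E)
open Pool.Agent.Helper41.KW (Word)
open Pool.Agent.Helper41.KM (Fm planes res of_planes ev_res)
open Pool.Agent.Helper73.QC Pool.Agent.Helper79.KM

deriving instance DecidableEq for Fm

/-- The plane of a pair of symbols: the number of the plane and, for each of its three equations,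
two residues which are equal up to a sign. -/
def tab : Fin 6 → Fin 6 →
    ℕ × (Fin 10 × Fin 10 × ℤ) × (Fin 10 × Fin 10 × ℤ) × (Fin 10 × Fin 10 × ℤ) :=
  ![![(0, (0, 0, 0), (0, 0, 0), (0, 0, 0)),
      (8, (8, 3, -1), (8, 6, -1), (9, 0, 1)),
      (9, (9, 5, 1), (8, 6, 1), (7, 2, 1)),
      (3, (7, 0, 1), (9, 2, 1), (8, 3, 1)),
      (1, (7, 2, -1), (9, 4, 1), (9, 7, -1)),
      (14, (9, 5, -1), (9, 0, -1), (9, 1, -1))],
    ![(8, (8, 3, -1), (8, 6, -1), (9, 0, 1)),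
      (0, (0, 0, 0), (0, 0, 0), (0, 0, 0)),
      (0, (9, 6, -1), (9, 8, -1), (9, 7, -1)),
      (12, (7, 0, -1), (8, 6, 1), (9, 3, 1)),
      (7, (9, 6, 1), (8, 5, 1), (7, 0, 1)),
      (6, (9, 5, 1), (8, 5, -1), (8, 3, 1))],
    ![(9, (9, 5, 1), (8, 6, 1), (7, 2, 1)),
      (0, (9, 6, -1), (9, 8, -1), (9, 7, -1)),
      (0, (0, 0, 0), (0, 0, 0), (0, 0, 0)),
      (5, (9, 6, 1), (8, 6, -1), (8, 1, 1)),
      (10, (8, 1, -1), (8, 5, -1), (9, 2, 1)),
      (11, (7, 2, -1), (8, 5, 1), (9, 1, 1))],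
    ![(3, (7, 0, 1), (9, 2, 1), (8, 3, 1)),
      (12, (7, 0, -1), (8, 6, 1), (9, 3, 1)),
      (5, (9, 6, 1), (8, 6, -1), (8, 1, 1)),
      (0, (0, 0, 0), (0, 0, 0), (0, 0, 0)),
      (13, (9, 6, -1), (9, 2, -1), (9, 3, -1)),
      (4, (8, 3, -1), (9, 4, 1), (9, 8, -1))],
    ![(1, (7, 2, -1), (9, 4, 1), (9, 7, -1)),
      (7, (9, 6, 1), (8, 5, 1), (7, 0, 1)),
      (10, (8, 1, -1), (8, 5, -1), (9, 2, 1)),
      (13, (9, 6, -1), (9, 2, -1), (9, 3, -1)),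
      (0, (0, 0, 0), (0, 0, 0), (0, 0, 0)),
      (2, (7, 2, 1), (9, 0, 1), (8, 1, 1))],
    ![(14, (9, 5, -1), (9, 0, -1), (9, 1, -1)),
      (6, (9, 5, 1), (8, 5, -1), (8, 3, 1)),
      (11, (7, 2, -1), (8, 5, 1), (9, 1, 1)),
      (4, (8, 3, -1), (9, 4, 1), (9, 8, -1)),
      (2, (7, 2, 1), (9, 0, 1), (8, 1, 1)),
      (0, (0, 0, 0), (0, 0, 0), (0, 0, 0))]]

/-- the form `e (x i - (W i s) (W j s) x j)` -/
def fm (s : Fin 6) (q : Fin 10 × Fin 10 × ℤ) : Fm :=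
  Fm.comb q.2.2 (res q.1) (q.2.2 * (W q.1 s * W q.2.1 s)) (res q.2.1)

theorem tab_ok : ∀ s t : Fin 6, s ≠ t →
    planes[(tab s t).1]? = some (fm s (tab s t).2.1, fm s (tab s t).2.2.1, fm s (tab s t).2.2.2) ∧
      (W (tab s t).2.1.1 s * W (tab s t).2.1.1 t =
        W (tab s t).2.1.2.1 s * W (tab s t).2.1.2.1 t) ∧
      (W (tab s t).2.2.1.1 s * W (tab s t).2.2.1.1 t =
        W (tab s t).2.2.1.2.1 s * W (tab s t).2.2.1.2.1 t) ∧
      (W (tab s t).2.2.2.1 s * W (tab s t).2.2.2.1 t =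
        W (tab s t).2.2.2.2.1 s * W (tab s t).2.2.2.2.1 t) := by
  decide +kernel

section

variable {r : ℕ} [hr : Fact r.Prime]

theorem ev_fm (a : Fin 5 → ZMod r) {s t : Fin 6}
    (h : ∀ i i', W i s * W i t = W i' s * W i' t →
      residues a i = ((W i s * W i' s : ℤ) : ZMod r) * residues a i')
    (q : Fin 10 × Fin 10 × ℤ) (hq : W q.1 s * W q.1 t = W q.2.1 s * W q.2.1 t) :
    Fm.ev a (fm s q) = 0 := by
  have h1 := h q.1 q.2.1 hq
  rw [fm, Fm.ev_comb, ev_res, ev_res, h1]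
  push_cast
  ring

theorem planar_of_pair (a : Fin 5 → ZMod r) (ha : ∀ i, residues a i ≠ 0) {s t : Fin 6}
    (hst : s ≠ t) (h : ∀ i i', W i s * W i t = W i' s * W i' t →
      residues a i = ((W i s * W i' s : ℤ) : ZMod r) * residues a i') :
    ∃ s t : ZMod r, s ≠ 0 ∧ t ≠ 0 ∧ Permuted (planeVec s t) a := by
  obtain ⟨h1, h2, h3, h4⟩ := tab_ok s t hst
  exact of_planes a ha _ _ h1 (ev_fm a h _ h2) (ev_fm a h _ h3) (ev_fm a h _ h4)

theorem odds (a : Fin 5 → ZMod r) (ha : ∀ i, residues a i ≠ 0)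
    (h : ∀ g : (ZMod r)ˣ, ¬ Even (height fun i => (g : ZMod r) * a i)) : Odds (residues a) := by
  refine ⟨fun j => ?_, ha, fun g hg => ?_⟩
  · fin_cases j <;> simp [Fin.sum_univ_succ, E, residues] <;> ring
  · have h1 := h (Units.mk0 g hg)
    rw [Nat.not_even_iff_odd, height, Units.val_mk0] at h1
    simp only [residues_mul] at h1
    exact h1

/-- **The classification for all odd primes**, from the theorem on words. -/
theorem classify_of (hr2 : r ≠ 2)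
    (two : ∀ w : Word, ∃ a b : Fin 6, ∀ n, w.i n = a ∨ w.i n = b) (a : Fin 5 → ZMod r)
    (ha : ∀ i, residues a i ≠ 0) :
    (∃ h : (ZMod r)ˣ, Even (height fun i => (h : ZMod r) * a i)) ∨
      ∃ s t : ZMod r, s ≠ 0 ∧ t ≠ 0 ∧ Permuted (planeVec s t) a := by
  by_cases hh : ∃ h : (ZMod r)ˣ, Even (height fun i => (h : ZMod r) * a i)
  · exact Or.inl hh
  · right
    push Not at hh
    obtain ⟨s, t, hst, h⟩ := pairs_of hr2 (odds a ha fun g => hh g) two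
    exact planar_of_pair a ha hst h

end

end Pool.Agent.Helper79.KC
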