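import Pool.Agent.Helper79.KC.Energy

/-!
# The parity of the carries
-/

open Finset

namespace Pool.Agent.Helper79.KC

open Pool.Agent.Helper44.KC Pool.Agent.Helper79.CL

variable {r : ℕ} [hr : Fact r.Prime] {x : Fin 10 → ZMod r}

theorem B_neg {h : ZMod r} {i : Fin 10} (hx : h * x i ≠ 0) : B x (-h) i = -B x h i := by
  rw [B_eq, B_eq, dist_neg hx]

theorem B_abs {h : ZMod r} {i : Fin 10} (hx : h * x i ≠ 0) : |B x h i| < r := by
  have h1 := dist_sq hx
  rw [← sq_abs] at h1
  have h2 : |CL.dist x h i| < r := by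
    have h3 : (0 : ℤ) ≤ r := Int.natCast_nonneg r
    exact lt_of_pow_lt_pow_left₀ 2 h3 h1
  rw [B_eq, abs_neg]
  exact h2

/-- a sum of centred residues is divisible by four times the modulus -/
theorem sum_B (hx : Odds x) {h : ZMod r} (hh : h ≠ 0) : ∃ m : ℤ, ∑ i, B x h i = 4 * r * m := by
  obtain ⟨m, hm⟩ := allOdd hx h hh
  refine ⟨2 - m, ?_⟩
  simp only [B, sum_sub_distrib, ← mul_sum, hm, sum_const, card_univ, Fintype.card_fin,
    nsmul_eq_mul]
  push_cast
  ring

/-- the carry for two summands -/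
theorem B_add {u v : ZMod r} {i : Fin 10} (hx : (u + v) * x i ≠ 0) :
    (0 < B x u i + B x v i ∧ B x u i + B x v i - B x (u + v) i = r) ∨
      (B x u i + B x v i < 0 ∧ B x u i + B x v i - B x (u + v) i = -r) := by
  have e : (u + v) * x i = u * x i + v * x i := by ring
  have hpos := hr.out.pos
  by_cases h : (u * x i).val + (v * x i).val < r
  · left
    rw [B, B, B, e, ZMod.val_add_of_lt h]
    push_cast
    constructor <;> omega
  · right
    push Not at h
    have h1 := ZMod.val_add_val_of_le h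
    have h3 : 0 < (u * x i + v * x i).val := by
      rw [← e]
      exact ZMod.val_pos.2 hx
    rw [B, B, B, e]
    constructor <;> omega

/-- the carry for three summands -/
theorem B_add3 {u v w : ZMod r} {i : Fin 10} (hx : (u + v + w) * x i ≠ 0) :
    ∃ k : ℤ, B x u i + B x v i + B x w i - B x (u + v + w) i = 2 * r * k ∧
      ((r < |B x u i + B x v i + B x w i| ∧ (k = 1 ∨ k = -1)) ∨
        (¬ r < |B x u i + B x v i + B x w i| ∧ k = 0)) := by
  have e : (u + v + w) * x i = u * x i + v * x i + w * x i := by ring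
  have e2 : u * x i + v * x i = (u + v) * x i := by ring
  have hpos := hr.out.pos
  have b1 := ZMod.val_lt (u * x i)
  have b2 := ZMod.val_lt (v * x i)
  have b3 := ZMod.val_lt (w * x i)
  have b4 := ZMod.val_lt (u * x i + v * x i)
  have h3 : 0 < (u * x i + v * x i + w * x i).val := by
    rw [← e]
    exact ZMod.val_pos.2 hx
  have h4 := ZMod.val_lt (u * x i + v * x i + w * x i)
  -- the number of carries
  have key : ∃ f : ℕ, f ≤ 2 ∧ (u * x i).val + (v * x i).val + (w * x i).val =
      (u * x i + v * x i + w * x i).val + f * r := by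
    by_cases h : (u * x i).val + (v * x i).val < r
    · by_cases h' : (u * x i + v * x i).val + (w * x i).val < r
      · refine ⟨0, by omega, ?_⟩
        rw [ZMod.val_add_of_lt h', ZMod.val_add_of_lt h]
        ring
      · push Not at h'
        have h5 := ZMod.val_add_val_of_le h'
        rw [ZMod.val_add_of_lt h] at h5
        exact ⟨1, by omega, by rw [h5]; ring⟩
    · push Not at h
      have h6 := ZMod.val_add_val_of_le h
      by_cases h' : (u * x i + v * x i).val + (w * x i).val < r
      · refine ⟨1, by omega, ?_⟩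
        rw [h6, ZMod.val_add_of_lt h']
        ring
      · push Not at h'
        have h5 := ZMod.val_add_val_of_le h'
        refine ⟨2, by omega, ?_⟩
        rw [h6]
        omega
  obtain ⟨f, hf2, hf⟩ := key
  rw [B, B, B, B, e]
  have hf' : ((u * x i).val : ℤ) + (v * x i).val + (w * x i).val =
      (u * x i + v * x i + w * x i).val + f * r := by exact_mod_cast hf
  have c3 : (0 : ℤ) < (u * x i + v * x i + w * x i).val := by exact_mod_cast h3
  have c4 : ((u * x i + v * x i + w * x i).val : ℤ) < r := by exact_mod_cast h4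
  refine ⟨1 - f, by linarith, ?_⟩
  have s1 : (r : ℤ) - 2 * (u * x i).val + (r - 2 * (v * x i).val) + (r - 2 * (w * x i).val) =
      3 * r - 2 * (u * x i + v * x i + w * x i).val - 2 * f * r := by linarith
  rw [s1]
  interval_cases f
  · left
    refine ⟨?_, Or.inl (by norm_num)⟩
    rw [lt_abs]
    left
    push_cast
    linarith
  · right
    refine ⟨?_, by norm_num⟩
    rw [not_lt, abs_le]
    push_cast
    constructor <;> linarith
  · left
    refine ⟨?_, Or.inr (by norm_num)⟩
    rw [lt_abs]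
    right
    push_cast
    linarith

/-- parity of two summands -/
theorem R2 (hx : Odds x) {u v : ZMod r} (hu : u ≠ 0) (hv : v ≠ 0) (huv : u + v ≠ 0) :
    Odd #{i | B x u i + B x v i < 0} := by
  obtain ⟨a, ha⟩ := sum_B hx hu
  obtain ⟨b, hb⟩ := sum_B hx hv
  obtain ⟨c, hc⟩ := sum_B hx huv
  have h1 : ∀ i, B x u i + B x v i - B x (u + v) i =
      r - 2 * r * (if B x u i + B x v i < 0 then 1 else 0) := by
    intro i
    rcases B_add (u := u) (v := v) (mul_ne_zero huv (hx.ne i)) with ⟨h2, h3⟩ | ⟨h2, h3⟩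
    · rw [h3, if_neg (by omega)]
      ring
    · rw [h3, if_pos h2]
      ring
  have h2 : ∑ i, (B x u i + B x v i - B x (u + v) i) =
      10 * r - 2 * r * (#{i | B x u i + B x v i < 0} : ℤ) := by
    simp only [h1, sum_sub_distrib, sum_const, card_univ, Fintype.card_fin, nsmul_eq_mul,
      ← mul_sum, sum_boole]
    push_cast
    ring
  rw [sum_sub_distrib, sum_add_distrib, ha, hb, hc] at h2
  have h3 : (r : ℤ) ≠ 0 := by
    have := hr.out.pos
    positivity
  have h4 : (2 * r : ℤ) * (2 * (a + b - c)) = 2 * r * (5 - #{i | B x u i + B x v i < 0}) := by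
    linarith
  have h5 := mul_left_cancel₀ (mul_ne_zero two_ne_zero h3) h4
  rw [← Int.odd_coe_nat]
  exact ⟨2 - (a + b - c), by linarith⟩

/-- parity of three summands -/
theorem R3 (hx : Odds x) {u v w : ZMod r} (hu : u ≠ 0) (hv : v ≠ 0) (hw : w ≠ 0)
    (huvw : u + v + w ≠ 0) : Even #{i | (r : ℤ) < |B x u i + B x v i + B x w i|} := by
  obtain ⟨a, ha⟩ := sum_B hx hu
  obtain ⟨b, hb⟩ := sum_B hx hv
  obtain ⟨c, hc⟩ := sum_B hx hw
  obtain ⟨d, hd⟩ := sum_B hx huvw
  choose k hk hk' using fun i => B_add3 (u := u) (v := v) (w := w) (mul_ne_zero huvw (hx.ne i))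
  have h2 : ∑ i, (B x u i + B x v i + B x w i - B x (u + v + w) i) = 2 * r * ∑ i, k i := by
    rw [mul_sum]
    exact sum_congr rfl fun i _ => hk i
  rw [sum_sub_distrib, sum_add_distrib, sum_add_distrib, ha, hb, hc, hd] at h2
  have h3 : (r : ℤ) ≠ 0 := by
    have := hr.out.pos
    positivity
  have h4 : (2 * r : ℤ) * (2 * (a + b + c - d)) = 2 * r * ∑ i, k i := by
    linarith
  have h5 := mul_left_cancel₀ (mul_ne_zero two_ne_zero h3) h4
  have h6 : ∀ i, ∃ m : ℤ, k i = (if (r : ℤ) < |B x u i + B x v i + B x w i| then 1 else 0) +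
      2 * m := by
    intro i
    rcases hk' i with ⟨h7, h8 | h8⟩ | ⟨h7, h8⟩
    · exact ⟨0, by rw [if_pos h7, h8]; norm_num⟩
    · exact ⟨-1, by rw [if_pos h7, h8]; norm_num⟩
    · exact ⟨0, by rw [if_neg h7, h8]; norm_num⟩
  choose m hm using h6
  have h7 : ∑ i, k i = #{i | (r : ℤ) < |B x u i + B x v i + B x w i|} + 2 * ∑ i, m i := by
    rw [mul_sum, sum_congr rfl fun i _ => hm i, sum_add_distrib, sum_boole]
  rw [← Int.even_coe_nat]
  exact ⟨a + b + c - d - ∑ i, m i, by linarith⟩

end Pool.Agent.Helper79.KC
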