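import Pool.Agent.Helper44.KC.Defs
import Pool.Agent.Helper79.CL.Energy

/-!
# A multiple without defect
-/

open Finset

namespace Pool.Agent.Helper79.KC

open Pool.Agent.Helper44.KC Pool.Agent.Helper79.CL

theorem E_eq : E = eps := rfl

theorem W_eq (i : Fin 10) (k : Fin 6) : W i k = dic k i := by
  revert i k
  decide

variable {r : ℕ} [hr : Fact r.Prime] {x : Fin 10 → ZMod r}

theorem B_eq (h : ZMod r) (i : Fin 10) : B x h i = -dist x h i := by
  rw [B, CL.dist]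
  ring

theorem D_eq (h : ZMod r) (j : Fin 6) : D x h j = -∑ i, eps j i * dist x h i := by
  rw [D, E_eq, ← sum_neg_distrib]
  refine sum_congr rfl fun i _ => ?_
  rw [B_eq]
  ring

omit hr in
theorem eps_zero (i : Fin 10) : eps 0 i = 1 := by
  revert i
  decide

theorem allOdd (hx : Odds x) : AllOdd x := by
  have : NeZero r := ⟨hr.out.ne_zero⟩
  intro h hh
  obtain ⟨m, hm⟩ := hx.odd h hh
  have h1 : r ∣ ∑ i, (h * x i).val := by
    rw [← ZMod.natCast_eq_zero_iff]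
    push_cast
    simp only [ZMod.natCast_val, ZMod.cast_id', id]
    have h2 := hx.rel 0
    rw [E_eq] at h2
    simp only [eps_zero, Int.cast_one, one_mul] at h2
    rw [← mul_sum, h2, mul_zero]
  obtain ⟨k, hk⟩ := h1
  rw [hk, Nat.mul_div_cancel_left _ hr.out.pos] at hm
  refine ⟨m, ?_⟩
  have h3 : ((∑ i, (h * x i).val : ℕ) : ℤ) = ((r * k : ℕ) : ℤ) := by rw [hk]
  rw [hm] at h3
  push_cast at h3
  exact h3

theorem exists_D (hr2 : r ≠ 2) (hx : Odds x) :
    ∃ h : ZMod r, h ≠ 0 ∧ ∀ (n : ℕ) (j : Fin 6), D x (2 ^ n * h) j = 0 := by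
  have he : ∀ j, ∑ i, (eps j i : ZMod r) * x i = 0 := by
    intro j
    have h1 := hx.rel j
    rwa [E_eq] at h1
  have h5 : (2 : ZMod r) ≠ 0 := by
    intro h6
    have h7 : ((2 : ℕ) : ZMod r) = 0 := by exact_mod_cast h6
    rw [ZMod.natCast_eq_zero_iff] at h7
    exact hr2 ((Nat.prime_dvd_prime_iff_eq hr.out Nat.prime_two).1 h7)
  obtain ⟨h, hh, h0⟩ := exists_zero_pow hr2 hx.ne he (allOdd hx)
  refine ⟨h, hh, fun n j => ?_⟩
  rw [D_eq, ← defect_spec hr2 he (allOdd hx) (mul_ne_zero (pow_ne_zero n h5) hh), h0, mul_zero,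
    neg_zero]

/-- the signs of the multiples -/
theorem exists_signs (hr2 : r ≠ 2) (hx : Odds x) : ∃ h : ZMod r, h ≠ 0 ∧
    ∀ n : ℕ, ∃ (p : Fin 6) (s : ℤ), (s = 1 ∨ s = -1) ∧
      ∀ i, (if 0 < B x (2 ^ n * h) i then (1 : ℤ) else -1) = s * W i p := by
  have he : ∀ j, ∑ i, (eps j i : ZMod r) * x i = 0 := by
    intro j
    have h1 := hx.rel j
    rwa [E_eq] at h1
  obtain ⟨h, hh, h0⟩ := exists_digits hr2 hx.ne he (allOdd hx)
  refine ⟨h, hh, fun n => ?_⟩
  have e : ∀ i, (if 0 < B x (2 ^ n * h) i then (1 : ℤ) else -1) =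
      if sgn x (2 ^ n * h) i then (1 : ℤ) else -1 := by
    intro i
    have h1 : 0 < B x (2 ^ n * h) i ↔ sgn x (2 ^ n * h) i = true := by
      rw [B, sgn, decide_eq_true_iff]
      omega
    simp only [h1]
  obtain ⟨p, hp | hp⟩ := h0 n
  · exact ⟨p, 1, Or.inl rfl, fun i => by rw [e, hp, W_eq, one_mul]⟩
  · exact ⟨p, -1, Or.inr rfl, fun i => by rw [e, hp, W_eq, neg_one_mul]⟩

end Pool.Agent.Helper79.KC
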