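import Pool.Agent.Helper79.KC.Carry
import Pool.Agent.Helper41.KW.Word

/-!
# The word of a vector with odd heights
-/

open Finset

namespace Pool.Agent.Helper79.KC

open Pool.Agent.Helper79.CL
open Pool.Agent.Helper44.KC (W B Odds)
open Pool.Agent.Helper41.KW (C sg neg Word)

/-- the set of the residue `i` -/
def wd (i : Fin 10) : Fin 6 → Bool := fun a => decide (W i a = 1)

/-- the coefficient of the residue `i` in the linear form of `w` -/
def co (w : Fin 6 → Bool) (i : Fin 10) : ℤ :=
  if w = wd i then 1 else if neg w = wd i then -1 else 0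

/-- all sets of three symbols -/
def setOf (p : Fin 10 × Bool) : Fin 6 → Bool := if p.2 then wd p.1 else neg (wd p.1)

theorem C_eq : C = univ.image setOf := by decide +kernel

theorem setOf_inj : ∀ p q : Fin 10 × Bool, setOf p = setOf q → p = q := by decide +kernel

theorem co_neg : ∀ (w : Fin 6 → Bool) (i : Fin 10), co (neg w) i = -co w i := by decide +kernel

theorem co_wd : ∀ i j : Fin 10, co (wd i) j = if i = j then 1 else 0 := by decide +kernel

theorem sg_wd : ∀ (i : Fin 10) (a : Fin 6), sg (wd i) a = W i a := by decide +kernel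

theorem sg_neg : ∀ (w : Fin 6 → Bool) (a : Fin 6), sg (neg w) a = -sg w a := by decide +kernel

theorem five : ∀ a : Fin 6, #{i | wd i a = false} = 5 := by decide +kernel

theorem sum_C {M : Type*} [AddCommMonoid M] (f : (Fin 6 → Bool) → M) :
    ∑ w ∈ C, f w = ∑ i, (f (wd i) + f (neg (wd i))) := by
  rw [C_eq, sum_image fun p _ q _ h => setOf_inj p q h, ← univ_product_univ, sum_product]
  refine sum_congr rfl fun i _ => ?_
  rw [Fintype.sum_bool]
  rfl

theorem mem_C {w : Fin 6 → Bool} (hw : w ∈ C) : ∃ i, w = wd i ∨ w = neg (wd i) := by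
  rw [C_eq, mem_image] at hw
  obtain ⟨⟨i, b⟩, -, h⟩ := hw
  refine ⟨i, ?_⟩
  cases b
  · exact Or.inr h.symm
  · exact Or.inl h.symm

theorem mem_C_iff (i : Fin 10) : wd i ∈ C := by
  revert i
  decide +kernel

section

variable {r : ℕ} [hr : Fact r.Prime] (x : Fin 10 → ZMod r)

/-- the remainders -/
def Yf (u : ZMod r) (w : Fin 6 → Bool) : ℤ := ∑ i, co w i * B x u i

variable {x}

omit hr in
theorem Yf_wd (u : ZMod r) (i : Fin 10) : Yf x u (wd i) = B x u i := by
  simp [Yf, co_wd]

omit hr in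
theorem Yf_neg (u : ZMod r) (w : Fin 6 → Bool) : Yf x u (neg w) = -Yf x u w := by
  simp [Yf, co_neg]

theorem Yf_neg_left (hx : Odds x) {u : ZMod r} (hu : u ≠ 0) (w : Fin 6 → Bool) :
    Yf x (-u) w = -Yf x u w := by
  rw [Yf, Yf, ← sum_neg_distrib]
  refine sum_congr rfl fun i _ => ?_
  rw [B_neg (mul_ne_zero hu (hx.ne i))]
  ring

theorem pair_even (hx : Odds x) {u v : ZMod r} (hu : u ≠ 0) (hv : v ≠ 0) (a : Fin 6) :
    Even (C.filter fun w => w a = true ∧ Yf x u w + Yf x v w < 0).card := by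
  by_cases huv : u + v = 0
  · have h1 : v = -u := by linear_combination huv
    have h2 : (C.filter fun w => w a = true ∧ Yf x u w + Yf x v w < 0) = ∅ := by
      refine filter_eq_empty_iff.2 fun w _ h => ?_
      rw [h1, Yf_neg_left hx hu] at h
      omega
    rw [h2]
    exact ⟨0, rfl⟩
  · have hS : ∀ i, B x u i + B x v i ≠ 0 := by
      intro i h
      rcases B_add (u := u) (v := v) (mul_ne_zero huv (hx.ne i)) with h1 | h1 <;> omega
    have h1 := R2 hx hu hv huv
    rw [← Nat.not_even_iff_odd, ← ZMod.natCast_eq_zero_iff_even] at h1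
    rw [← ZMod.natCast_eq_zero_iff_even, card_filter, sum_C]
    have h2 : ∀ i, ((if wd i a = true ∧ Yf x u (wd i) + Yf x v (wd i) < 0 then 1 else 0) +
        (if neg (wd i) a = true ∧ Yf x u (neg (wd i)) + Yf x v (neg (wd i)) < 0 then 1 else 0 :
          ℕ) : ZMod 2) = (if B x u i + B x v i < 0 then 1 else 0) +
            if wd i a = false then 1 else 0 := by
      intro i
      have h3 := hS i
      rw [Yf_neg, Yf_neg, Yf_wd, Yf_wd]
      rcases Bool.eq_false_or_eq_true (wd i a) with h4 | h4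
      · have h5 : neg (wd i) a = false := by
          rw [neg, h4]
          rfl
        rw [h4, h5]
        by_cases h6 : B x u i + B x v i < 0 <;> simp [h6]
      · have h5 : neg (wd i) a = true := by
          rw [neg, h4]
          rfl
        rw [h4, h5]
        by_cases h6 : B x u i + B x v i < 0
        · have h7 : ¬ (-B x u i + -B x v i < 0) := by omega
          simp only [h6, h7]
          simp
          decide
        · have h7 : -B x u i + -B x v i < 0 := by omega
          simp [h6, h7]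
    push_cast
    push_cast at h2
    rw [sum_congr rfl fun i _ => h2 i, sum_add_distrib, sum_boole, sum_boole, five]
    have h3 : (#{i | B x u i + B x v i < 0} : ZMod 2) = 1 := by
      have h4 : ∀ z : ZMod 2, z ≠ 0 → z = 1 := by decide
      exact h4 _ h1
    rw [h3]
    decide

theorem three_zero (hx : Odds x) {u v w : ZMod r} (hu : u ≠ 0)
    (h : u + v + w = 0) (i : Fin 10) : |B x u i + B x v i + B x w i| = r := by
  have e : u * x i + v * x i + w * x i = 0 := by
    rw [← add_mul, ← add_mul, h, zero_mul]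
  have hd : r ∣ (u * x i).val + (v * x i).val + (w * x i).val := by
    have : NeZero r := ⟨hr.out.ne_zero⟩
    rw [← ZMod.natCast_eq_zero_iff]
    push_cast
    simp only [ZMod.natCast_val, ZMod.cast_id', id]
    exact e
  obtain ⟨k, hk⟩ := hd
  have a1 := ZMod.val_pos.2 (mul_ne_zero hu (hx.ne i))
  have b1 := ZMod.val_lt (u * x i)
  have b2 := ZMod.val_lt (v * x i)
  have b3 := ZMod.val_lt (w * x i)
  have hk1 : 0 < k := by
    rcases k.eq_zero_or_pos with h0 | h0
    · rw [h0] at hk
      omega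
    · exact h0
  have hk3 : k < 3 := by
    by_contra hcon
    push Not at hcon
    have := Nat.mul_le_mul_left r hcon
    omega
  have hk' : ((u * x i).val : ℤ) + (v * x i).val + (w * x i).val = r * k := by exact_mod_cast hk
  have s1 : B x u i + B x v i + B x w i = 3 * r - 2 * (r * k) := by
    rw [B, B, B, ← hk']
    ring
  rw [s1]
  have hpos : (0 : ℤ) < r := by exact_mod_cast hr.out.pos
  interval_cases k
  · rw [abs_of_nonneg]
    · push_cast
      ring
    · push_cast
      linarith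
  · rw [abs_of_nonpos]
    · push_cast
      ring
    · push_cast
      linarith

theorem trip_even (hx : Odds x) {u v w : ZMod r} (hu : u ≠ 0) (hv : v ≠ 0) (hw : w ≠ 0) :
    Even (C.filter fun z => (r : ℤ) < Yf x u z + Yf x v z + Yf x w z).card := by
  have hpos : (0 : ℤ) < r := by exact_mod_cast hr.out.pos
  have h1 : (C.filter fun z => (r : ℤ) < Yf x u z + Yf x v z + Yf x w z).card =
      #{i | (r : ℤ) < |B x u i + B x v i + B x w i|} := by
    rw [card_filter, sum_C, card_filter]
    refine sum_congr rfl fun i _ => ?_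
    rw [Yf_neg, Yf_neg, Yf_neg, Yf_wd, Yf_wd, Yf_wd]
    have h2 : (r : ℤ) < |B x u i + B x v i + B x w i| ↔
        r < B x u i + B x v i + B x w i ∨ r < -B x u i + -B x v i + -B x w i := by
      rw [lt_abs]
      constructor
      · rintro (h | h)
        · exact Or.inl h
        · exact Or.inr (by linarith)
      · rintro (h | h)
        · exact Or.inl h
        · exact Or.inr (by linarith)
    simp only [h2]
    by_cases h3 : (r : ℤ) < B x u i + B x v i + B x w i
    · have h4 : ¬ ((r : ℤ) < -B x u i + -B x v i + -B x w i) := by linarith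
      simp [h3, h4]
    · simp [h3]
  rw [h1]
  by_cases h : u + v + w = 0
  · have h2 : (univ.filter fun i => (r : ℤ) < |B x u i + B x v i + B x w i|) = ∅ := by
      refine filter_eq_empty_iff.2 fun i _ h3 => ?_
      rw [three_zero hx hu h] at h3
      exact lt_irrefl _ h3
    rw [h2]
    exact ⟨0, rfl⟩
  · exact R3 hx hu hv hw h

theorem nz_aux (hr2 : r ≠ 2) (hx : Odds x) {u v w : ZMod r} (hu : u ≠ 0)
    (h : ∃ z ∈ C, Yf x u z + Yf x v z + Yf x w z = r) :
    ∀ z ∈ C, |Yf x u z + Yf x v z + Yf x w z| = r := by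
  have : NeZero r := ⟨hr.out.ne_zero⟩
  have hpos : (0 : ℤ) < r := by exact_mod_cast hr.out.pos
  -- the sum of the multipliers is zero
  have h0 : u + v + w = 0 := by
    obtain ⟨z, hz, hs⟩ := h
    obtain ⟨i, hi⟩ := mem_C hz
    have h1 : |B x u i + B x v i + B x w i| = r := by
      rcases hi with rfl | rfl
      · rw [Yf_wd, Yf_wd, Yf_wd] at hs
        rw [hs, abs_of_pos hpos]
      · rw [Yf_neg, Yf_neg, Yf_neg, Yf_wd, Yf_wd, Yf_wd] at hs
        have h2 : B x u i + B x v i + B x w i = -r := by linarith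
        rw [h2, abs_neg, abs_of_pos hpos]
    by_contra hne
    obtain ⟨k, hk, -⟩ := B_add3 (u := u) (v := v) (w := w) (mul_ne_zero hne (hx.ne i))
    have h3 : ((r : ℤ) ∣ B x (u + v + w) i) := by
      rcases abs_eq hpos.le |>.1 h1 with h4 | h4
      · exact ⟨1 - 2 * k, by linarith⟩
      · exact ⟨-1 - 2 * k, by linarith⟩
    have h5 := B_abs (x := x) (mul_ne_zero hne (hx.ne i))
    have h6 : B x (u + v + w) i = 0 := Int.eq_zero_of_abs_lt_dvd h3 h5
    have h7 : (r : ℤ) = 2 * ((u + v + w) * x i).val := by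
      rw [B] at h6
      linarith
    have h8 : r = 2 * ((u + v + w) * x i).val := by exact_mod_cast h7
    have h9 : (2 : ZMod r) * ((u + v + w) * x i) = 0 := by
      have h10 := congrArg (Nat.cast : ℕ → ZMod r) h8
      rw [ZMod.natCast_self] at h10
      push_cast at h10
      rw [ZMod.natCast_val, ZMod.cast_id', id] at h10
      exact h10.symm
    rcases mul_eq_zero.1 h9 with h10 | h10
    · have h11 : ((2 : ℕ) : ZMod r) = 0 := by exact_mod_cast h10
      rw [ZMod.natCast_eq_zero_iff] at h11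
      exact hr2 ((Nat.prime_dvd_prime_iff_eq hr.out Nat.prime_two).1 h11)
    · exact mul_ne_zero hne (hx.ne i) h10
  intro z hz
  obtain ⟨i, hi⟩ := mem_C hz
  rcases hi with rfl | rfl
  · rw [Yf_wd, Yf_wd, Yf_wd]
    exact three_zero hx hu h0 i
  · rw [Yf_neg, Yf_neg, Yf_neg, Yf_wd, Yf_wd, Yf_wd, ← abs_neg]
    rw [show -(-B x u i + -B x v i + -B x w i) = B x u i + B x v i + B x w i by ring]
    exact three_zero hx hu h0 i

/-- the signs of the multiple by `u` are those of the symbol `p` with the sign `s` -/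
def Good (x : Fin 10 → ZMod r) (u : ZMod r) (ps : Fin 6 × ℤ) : Prop :=
  (ps.2 = 1 ∨ ps.2 = -1) ∧ ∀ i, (if 0 < B x u i then (1 : ℤ) else -1) = ps.2 * W i ps.1

open Classical in
/-- the symbol and the sign -/
noncomputable def symb (x : Fin 10 → ZMod r) (u : ZMod r) : Fin 6 × ℤ :=
  if h : ∃ ps, Good x u ps then h.choose else (0, 1)

omit hr in
theorem symb_good {u : ZMod r} (h : ∃ ps, Good x u ps) : Good x u (symb x u) := by
  rw [symb, dif_pos h]
  exact h.choose_spec

theorem B_double (hr2 : r ≠ 2) (hx : Odds x) {u : ZMod r} (hu : u ≠ 0) (i : Fin 10) :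
    2 * B x u i = r * (if 0 < B x u i then (1 : ℤ) else -1) + B x (2 * u) i := by
  have h2 : (2 : ZMod r) ≠ 0 := by
    intro h6
    have h7 : ((2 : ℕ) : ZMod r) = 0 := by exact_mod_cast h6
    rw [ZMod.natCast_eq_zero_iff] at h7
    exact hr2 ((Nat.prime_dvd_prime_iff_eq hr.out Nat.prime_two).1 h7)
  have h3 : u + u ≠ 0 := by
    rw [← two_mul]
    exact mul_ne_zero h2 hu
  have h4 := B_add (x := x) (u := u) (v := u) (mul_ne_zero h3 (hx.ne i))
  rw [← two_mul u] at h4
  rcases h4 with ⟨h5, h6⟩ | ⟨h5, h6⟩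
  · rw [if_pos (by omega)]
    linarith
  · rw [if_neg (by omega)]
    linarith

/-- **The word.** -/
theorem word_of (hr2 : r ≠ 2) (hx : Odds x) : ∃ (h : ZMod r) (w : Word), h ≠ 0 ∧
    (∀ n i, (if 0 < B x (2 ^ n * h) i then (1 : ℤ) else -1) = w.s n * W i (w.i n)) ∧
      ∀ n, w.s n = 1 ∨ w.s n = -1 := by
  obtain ⟨h, hh, hs⟩ := exists_signs hr2 hx
  have h2 : (2 : ZMod r) ≠ 0 := by
    intro h6
    have h7 : ((2 : ℕ) : ZMod r) = 0 := by exact_mod_cast h6
    rw [ZMod.natCast_eq_zero_iff] at h7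
    exact hr2 ((Nat.prime_dvd_prime_iff_eq hr.out Nat.prime_two).1 h7)
  have hn : ∀ n, (2 : ZMod r) ^ n * h ≠ 0 := fun n => mul_ne_zero (pow_ne_zero n h2) hh
  have hg : ∀ n, Good x (2 ^ n * h) (symb x (2 ^ n * h)) := by
    intro n
    obtain ⟨p, s, h3, h4⟩ := hs n
    exact symb_good ⟨(p, s), h3, h4⟩
  -- a multiple by a sign
  have he : ∀ {e : ℤ}, (e = 1 ∨ e = -1) → ∀ q, (e : ZMod r) * (2 ^ q * h) ≠ 0 ∧
      ∀ w, Yf x ((e : ZMod r) * (2 ^ q * h)) w = e * Yf x (2 ^ q * h) w := by
    intro e he q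
    rcases he with rfl | rfl
    · refine ⟨by rw [Int.cast_one, one_mul]; exact hn q, fun w => ?_⟩
      rw [Int.cast_one, one_mul, one_mul]
    · refine ⟨by rw [Int.cast_neg, Int.cast_one, neg_one_mul]; exact neg_ne_zero.2 (hn q),
        fun w => ?_⟩
      rw [Int.cast_neg, Int.cast_one, neg_one_mul, neg_one_mul, Yf_neg_left hx (hn q)]
  refine ⟨h, ⟨r, fun n => (symb x (2 ^ n * h)).2, fun n => (symb x (2 ^ n * h)).1,
    fun n w => Yf x (2 ^ n * h) w, r - 1, fun n => (hg n).1, ?_, ?_, ?_, ?_, ?_, ?_, ?_, ?_⟩, hh,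
    fun n i => (hg n).2 i, fun n => (hg n).1⟩
  · have := hr.out.two_le
    omega
  · intro n
    have h3 : (2 : ZMod r) ^ (n + (r - 1)) * h = 2 ^ n * h := by
      rw [pow_add, ZMod.pow_card_sub_one_eq_one h2, mul_one]
    simp only [h3]
  · intro n w
    exact Yf_neg _ _
  · intro n w hw
    obtain ⟨i, rfl | rfl⟩ := mem_C hw
    · rw [Yf_wd]
      exact B_abs (mul_ne_zero (hn n) (hx.ne i))
    · rw [Yf_neg, Yf_wd, abs_neg]
      exact B_abs (mul_ne_zero (hn n) (hx.ne i))
  · intro n w hw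
    have h3 : (2 : ZMod r) ^ (n + 1) * h = 2 * (2 ^ n * h) := by ring
    simp only [h3]
    obtain ⟨i, rfl | rfl⟩ := mem_C hw
    · rw [Yf_wd, Yf_wd, sg_wd, ← (hg n).2 i]
      exact B_double hr2 hx (hn n) i
    · rw [Yf_neg, Yf_neg, Yf_wd, Yf_wd, sg_neg, sg_wd]
      have h4 := B_double hr2 hx (hn n) i
      rw [(hg n).2 i] at h4
      linear_combination -h4
  · intro a p q e hee
    obtain ⟨h3, h4⟩ := he hee q
    have h5 := pair_even hx (hn p) h3 a
    simp only [h4] at h5
    exact h5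
  · intro p q t e e' hee hee'
    obtain ⟨h3, h4⟩ := he hee q
    obtain ⟨h3', h4'⟩ := he hee' t
    have h5 := trip_even hx (hn p) h3 h3'
    simp only [h4, h4'] at h5
    exact h5
  · intro p q t e e' hee hee'
    obtain ⟨h3, h4⟩ := he hee q
    obtain ⟨h3', h4'⟩ := he hee' t
    have h5 := nz_aux (v := (e : ZMod r) * (2 ^ q * h))
      (w := (e' : ZMod r) * (2 ^ t * h)) hr2 hx (hn p)
    simp only [h4, h4'] at h5
    exact h5

/-- If only two symbols occur then two residues on which they agree up to a sign are equal up to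
this sign. -/
theorem pairs_of_two (hr2 : r ≠ 2) (hx : Odds x)
    (two : ∀ w : Word, ∃ a b : Fin 6, ∀ n, w.i n = a ∨ w.i n = b) :
    ∃ a b : Fin 6, ∀ i i', W i a * W i b = W i' a * W i' b →
      x i = ((W i a * W i' a : ℤ) : ZMod r) * x i' := by
  obtain ⟨h, w, hh, hw, hs⟩ := word_of hr2 hx
  obtain ⟨a, b, hab⟩ := two w
  refine ⟨a, b, fun i i' hW => ?_⟩
  have h2 : (2 : ZMod r) ≠ 0 := by
    intro h6
    have h7 : ((2 : ℕ) : ZMod r) = 0 := by exact_mod_cast h6
    rw [ZMod.natCast_eq_zero_iff] at h7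
    exact hr2 ((Nat.prime_dvd_prime_iff_eq hr.out Nat.prime_two).1 h7)
  have hn : ∀ n, (2 : ZMod r) ^ n * h ≠ 0 := fun n => mul_ne_zero (pow_ne_zero n h2) hh
  have hW1 : ∀ (i : Fin 10) (a : Fin 6), W i a = 1 ∨ W i a = -1 := by decide
  set τ : ℤ := W i a * W i' a with hτ
  -- the digits agree
  have h3 : ∀ n, W i (w.i n) = τ * W i' (w.i n) := by
    intro n
    rcases hab n with h4 | h4
    · rw [h4, hτ]
      rcases hW1 i' a with h5 | h5 <;> rw [h5] <;> ring
    · rw [h4, hτ]
      have h5 : W i a * W i a = 1 := by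
        rcases hW1 i a with h5 | h5 <;> rw [h5] <;> norm_num
      linear_combination W i a * hW - W i b * h5
  have h4 : ∀ n, 2 * (B x (2 ^ n * h) i - τ * B x (2 ^ n * h) i') =
      B x (2 ^ (n + 1) * h) i - τ * B x (2 ^ (n + 1) * h) i' := by
    intro n
    have e : (2 : ZMod r) ^ (n + 1) * h = 2 * (2 ^ n * h) := by ring
    have h5 := B_double hr2 hx (hn n) i
    have h6 := B_double hr2 hx (hn n) i'
    rw [hw n i, h3 n] at h5
    rw [hw n i'] at h6
    rw [e]
    linear_combination h5 - τ * h6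
  have h5 : ∀ n, 2 ^ n * (B x h i - τ * B x h i') =
      B x (2 ^ n * h) i - τ * B x (2 ^ n * h) i' := by
    intro n
    induction n with
    | zero => simp
    | succ n ih => rw [← h4, ← ih]; ring
  have h6 := h5 (r - 1)
  rw [ZMod.pow_card_sub_one_eq_one h2, one_mul] at h6
  have h7 : B x h i - τ * B x h i' = 0 := by
    have h8 : ((2 : ℤ) ^ (r - 1) - 1) * (B x h i - τ * B x h i') = 0 := by linarith
    refine (mul_eq_zero.1 h8).resolve_left ?_
    have h9 : 1 < (2 : ℤ) ^ (r - 1) := by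
      have := hr.out.two_le
      exact one_lt_pow₀ (by norm_num) (by omega)
    omega
  have h8 : ∀ i, ((B x h i : ℤ) : ZMod r) = -2 * (h * x i) := by
    intro i
    rw [B]
    push_cast
    have : NeZero r := ⟨hr.out.ne_zero⟩
    rw [ZMod.natCast_self, ZMod.natCast_val, ZMod.cast_id', id]
    ring
  have h9 := congrArg (Int.cast : ℤ → ZMod r) h7
  push_cast at h9
  rw [h8, h8] at h9
  have h10 : (-2 * h) * (x i - (τ : ZMod r) * x i') = 0 := by
    linear_combination h9
  have h11 := (mul_eq_zero.1 h10).resolve_left (mul_ne_zero (neg_ne_zero.2 h2) hh)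
  exact sub_eq_zero.1 h11

/-- the two symbols can be taken different -/
theorem pairs_of (hr2 : r ≠ 2) (hx : Odds x)
    (two : ∀ w : Word, ∃ a b : Fin 6, ∀ n, w.i n = a ∨ w.i n = b) :
    ∃ a b : Fin 6, a ≠ b ∧ ∀ i i', W i a * W i b = W i' a * W i' b →
      x i = ((W i a * W i' a : ℤ) : ZMod r) * x i' := by
  obtain ⟨a, b, h⟩ := pairs_of_two hr2 hx two
  by_cases hab : a = b
  · subst hab
    have h0 : ∀ a : Fin 6, ∃ c : Fin 6, a ≠ c := by decide
    obtain ⟨c, hc⟩ := h0 a
    refine ⟨a, c, hc, fun i i' _ => h i i' ?_⟩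
    have h1 : ∀ (i i' : Fin 10) (a : Fin 6), W i a * W i a = W i' a * W i' a := by decide
    exact h1 i i' a
  · exact ⟨a, b, hab, h⟩

end

end Pool.Agent.Helper79.KC
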